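import Pool.Agent.H92.RR.Targets

/-!
# Row RCEA: the mean ergodic theorem for monomials
-/

set_option autoImplicit false

open MeasureTheory ProbabilityTheory Filter Topology Finset
open scoped ENNReal

namespace Pool.Agent.H37.RR

open Pool.Agent.H89.MT Pool.Agent.H92.RR

lemma shift_iter (m : ℕ) (x : X) (j : ℤ) : (shift^[m] x) j = x (j + m) := by
  induction m generalizing x with
  | zero => simp
  | succ m ih =>
    rw [Function.iterate_succ_apply, ih]
    unfold shift
    congr 1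
    push_cast
    ring

section erg

variable {Y : Type*} [MeasurableSpace Y] {ν : Measure Y} [IsProbabilityMeasure ν] {T : Y → Y}

/-- The mean ergodic theorem, for bounded functions. -/
lemma mean_erg (hT : Ergodic T ν) (f g : Y → ℝ) (hf : MemLp f 2 ν) (hg : MemLp g 2 ν) :
    Tendsto (fun M : ℕ => (∑ m ∈ range M, ∫ x, f x * g (T^[m] x) ∂ν) / M) atTop
      (𝓝 ((∫ x, f x ∂ν) * ∫ x, g x ∂ν)) := by
  have hmp : MeasurePreserving T ν ν := hT.toMeasurePreserving
  set U : Lp ℝ 2 ν →L[ℝ] Lp ℝ 2 ν :=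
    (Lp.compMeasurePreservingₗᵢ ℝ T hmp).toContinuousLinearMap with hU
  have hUn : ‖U‖ ≤ 1 := LinearIsometry.norm_toContinuousLinearMap_le _
  have hUg : ∀ (h : Y → ℝ) (hh : MemLp h 2 ν), U (hh.toLp h) =
      (hh.comp_measurePreserving hmp).toLp _ := by
    intro h hh
    exact Lp.toLp_compMeasurePreserving hh hmp
  have hit : ∀ m : ℕ, MeasurePreserving (T^[m]) ν ν := fun m => hmp.iterate m
  have hUm : ∀ (h : Y → ℝ) (hh : MemLp h 2 ν) (m : ℕ), (U^[m]) (hh.toLp h) =
      (hh.comp_measurePreserving (hit m)).toLp _ := by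
    intro h hh m
    induction m generalizing h with
    | zero => rfl
    | succ m ih =>
      rw [Function.iterate_succ_apply, hUg h hh, ih _ (hh.comp_measurePreserving hmp)]
      apply MemLp.toLp_congr
      rw [Function.iterate_succ', Function.comp_assoc]
  have hin : ∀ (h k : Y → ℝ) (hh : MemLp h 2 ν) (hk : MemLp k 2 ν),
      inner ℝ (hh.toLp h) (hk.toLp k) = ∫ x, h x * k x ∂ν := by
    intro h k hh hk
    rw [L2.inner_def]
    apply integral_congr_ae
    filter_upwards [hh.coeFn_toLp, hk.coeFn_toLp] with x h1 h2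
    rw [h1, h2]
    simp [mul_comm]
  set Kf := U.eqLocus (1 : Lp ℝ 2 ν →L[ℝ] Lp ℝ 2 ν) with hKf
  set G := hg.toLp g with hG
  have hme := U.tendsto_birkhoffAverage_orthogonalProjection hUn G
  set PG : Lp ℝ 2 ν := (Kf.orthogonalProjectionOnto G : Lp ℝ 2 ν) with hPG
  have key : ∀ (h : Y → ℝ) (hh : MemLp h 2 ν),
      Tendsto (fun M : ℕ => (∑ m ∈ range M, ∫ x, h x * g (T^[m] x) ∂ν) / M) atTop
        (𝓝 (inner ℝ (hh.toLp h) PG)) := by
    intro h hh
    have h1 : Tendsto (fun M : ℕ => inner ℝ (hh.toLp h) (birkhoffAverage ℝ U _root_.id M G)) atTop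
        (𝓝 (inner ℝ (hh.toLp h) PG)) := Filter.Tendsto.inner tendsto_const_nhds hme
    refine h1.congr ?_
    intro M
    unfold birkhoffAverage birkhoffSum
    rw [inner_smul_right, inner_sum, div_eq_inv_mul]
    congr 1
    apply Finset.sum_congr rfl
    intro m _
    rw [id, hG, hUm g hg m, hin]
    rfl
  -- PG is constant
  have hfix : U PG = PG := (Kf.orthogonalProjectionOnto G).2
  have hae : (PG : Y → ℝ) ∘ T =ᵐ[ν] PG := by
    have h1 : (U PG : Y → ℝ) =ᵐ[ν] (PG : Y → ℝ) ∘ T :=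
      Lp.coeFn_compMeasurePreserving PG hmp
    rw [hfix] at h1
    exact h1.symm
  obtain ⟨c, hc⟩ := hT.ae_eq_const_of_ae_eq_comp_ae (Lp.aestronglyMeasurable PG) hae
  have hval : ∀ (h : Y → ℝ) (hh : MemLp h 2 ν), inner ℝ (hh.toLp h) PG = (∫ x, h x ∂ν) * c := by
    intro h hh
    rw [L2.inner_def, ← integral_mul_const]
    apply integral_congr_ae
    filter_upwards [hh.coeFn_toLp, hc] with x h1 h2
    rw [h1, h2]
    simp [mul_comm]
  have hone : MemLp (fun _ : Y => (1 : ℝ)) 2 ν := memLp_const 1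
  have h1 := key _ hone
  rw [hval _ hone] at h1
  have h2 : Tendsto (fun M : ℕ => (∑ m ∈ range M, ∫ x, (1 : ℝ) * g (T^[m] x) ∂ν) / M) atTop
      (𝓝 (∫ x, g x ∂ν)) := by
    refine tendsto_const_nhds.congr' ?_
    filter_upwards [eventually_gt_atTop 0] with M hM
    have h3 : ∀ m, ∫ x, (1 : ℝ) * g (T^[m] x) ∂ν = ∫ x, g x ∂ν := by
      intro m
      simp only [one_mul]
      have h4 := (hit m).map_eq
      have h5 := integral_map (hit m).measurable.aemeasurable (μ := ν) (f := g)
        (by rw [h4]; exact hg.aestronglyMeasurable)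
      rw [h4] at h5
      exact h5.symm
    rw [Finset.sum_congr rfl fun m _ => h3 m, Finset.sum_const, Finset.card_range, nsmul_eq_mul]
    have : (M : ℝ) ≠ 0 := by positivity
    field_simp
  have h3 := tendsto_nhds_unique h1 h2
  have h4 : c = ∫ x, g x ∂ν := by
    simpa using h3
  have h5 := key f hf
  rw [hval f hf, h4] at h5
  exact h5

end erg

lemma mono_meas (J : Finset ℤ) (a : ℤ → ℕ) :
    Measurable (fun x : X => ∏ j ∈ J, (x j : ℝ) ^ a j) := by
  apply Finset.measurable_prod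
  intro j _
  exact (measurable_subtype_coe.comp (measurable_pi_apply j)).pow_const _

lemma mono_bdd (J : Finset ℤ) (a : ℤ → ℕ) (x : X) : ‖∏ j ∈ J, (x j : ℝ) ^ a j‖ ≤ 1 := by
  rw [norm_prod]
  apply Finset.prod_le_one
  · intro j _
    exact norm_nonneg _
  · intro j _
    rw [norm_pow]
    apply pow_le_one₀ (norm_nonneg _)
    rw [Real.norm_eq_abs]
    exact abs_le.2 ⟨(x j).2.1, (x j).2.2⟩

/-- Row RCEA. -/
theorem pf_CEA : T_CEA := by
  intro α hα hE J J' a a'
  have h1 : MemLp (fun x : X => ∏ j ∈ J, (x j : ℝ) ^ a j) 2 α :=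
    MemLp.of_bound (mono_meas J a).aestronglyMeasurable 1 (Eventually.of_forall (mono_bdd J a))
  have h2 : MemLp (fun x : X => ∏ j ∈ J', (x j : ℝ) ^ a' j) 2 α :=
    MemLp.of_bound (mono_meas J' a').aestronglyMeasurable 1 (Eventually.of_forall (mono_bdd J' a'))
  have h3 := mean_erg hE _ _ h1 h2
  simp only [shift_iter] at h3
  exact h3

end Pool.Agent.H37.RR
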